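import Pool.Agent.H.MP_78daa0_an.Riesz

set_option autoImplicit false
set_option maxHeartbeats 400000

namespace Pool.Agent.H.MP_0d9948_an

open MeasureTheory Filter Topology Metric Real Pool.Agent.H.MP_78daa0_an
open scoped ENNReal ComplexConjugate

noncomputable def ww (z : ℂ) : ℂ := (1 + z) / (1 - z)

noncomputable def gg (z : ℂ) : ℂ := Complex.exp (π / 2 + Complex.I * Complex.log (ww z))

theorem ww_re (z : ℂ) : (ww z).re = (1 - ‖z‖ ^ 2) / Complex.normSq (1 - z) := by
  rw [ww, Complex.div_re, ← add_div, ← Complex.normSq_eq_norm_sq, Complex.normSq_apply z]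
  congr 1
  simp
  ring

theorem norm_gg (z : ℂ) : ‖gg z‖ = Real.exp (π / 2 - (ww z).arg) := by
  rw [gg, Complex.norm_exp]
  congr 1
  simp [Complex.log_im, sub_eq_add_neg]

theorem ww_re_pos {z : ℂ} (hz : ‖z‖ < 1) : 0 < (ww z).re := by
  rw [ww_re]
  have h1 : (1 : ℂ) - z ≠ 0 := by
    intro h
    have : z = 1 := by linear_combination -h
    rw [this] at hz
    simp at hz
  exact div_pos (by nlinarith [norm_nonneg z]) (Complex.normSq_pos.2 h1)

theorem ww_re_nonneg {z : ℂ} (hz : ‖z‖ ≤ 1) : 0 ≤ (ww z).re := by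
  rw [ww_re]
  exact div_nonneg (by nlinarith [norm_nonneg z]) (Complex.normSq_nonneg _)

theorem one_lt_gg {z : ℂ} (hz : ‖z‖ < 1) : 1 < ‖gg z‖ := by
  rw [norm_gg]
  have := (abs_lt.1 (Complex.abs_arg_lt_pi_div_two_iff.2 (Or.inl (ww_re_pos hz)))).2
  exact Real.one_lt_exp_iff.2 (by linarith)

theorem gg_bounds {z : ℂ} (hz : ‖z‖ ≤ 1) : 1 ≤ ‖gg z‖ ∧ ‖gg z‖ ≤ Real.exp π := by
  rw [norm_gg]
  have := abs_le.1 (Complex.abs_arg_le_pi_div_two_iff.2 (ww_re_nonneg hz))
  exact ⟨Real.one_le_exp (by linarith [this.2]), Real.exp_le_exp.2 (by linarith [this.1])⟩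

theorem gg_ne (z : ℂ) : gg z ≠ 0 := Complex.exp_ne_zero _

theorem gg_diffAt {z : ℂ} (h1 : z ≠ 1) (h2 : ww z ∈ Complex.slitPlane) :
    DifferentiableAt ℂ gg z := by
  have h3 : DifferentiableAt ℂ ww z := by
    unfold ww
    exact DifferentiableAt.div (by fun_prop) (by fun_prop) (sub_ne_zero.2 h1.symm)
  unfold gg
  exact ((differentiableAt_const _).add ((differentiableAt_const _).mul (h3.clog h2))).cexp

theorem gg_diff : DifferentiableOn ℂ gg (ball 0 1) := fun z hz => by
  rw [mem_ball_zero_iff] at hz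
  refine (gg_diffAt ?_ (Or.inl (ww_re_pos hz))).differentiableWithinAt
  rintro rfl
  simp at hz

theorem norm_gg_zero : ‖gg 0‖ = Real.exp (π / 2) := by
  rw [norm_gg]; simp [ww]

theorem measurable_gg : Measurable gg := by
  unfold gg ww
  exact Complex.measurable_exp.comp (measurable_const.add (measurable_const.mul
    (Complex.measurable_log.comp (by fun_prop))))

noncomputable def GG (x : TT) : ℂ := gg (fourier 1 x)

theorem measurable_GG : Measurable GG :=
  measurable_gg.comp (map_continuous (fourier 1)).measurable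

theorem GG_bounds (x : TT) : 1 ≤ ‖GG x‖ ∧ ‖GG x‖ ≤ Real.exp π := gg_bounds (norm_fourier 1 x).le

theorem GG_ne (x : TT) : GG x ≠ 0 := gg_ne _

theorem ae_ne_val (c : ℂ) : ∀ᵐ x ∂mu, fourier 1 x ≠ c := by
  have : Set.Subsingleton {x : TT | fourier 1 x = c} := by
    intro x hx y hy
    have h : (fourier 1 x : ℂ) = fourier 1 y := hx.trans hy.symm
    rw [fourier_one, fourier_one] at h
    exact AddCircle.injective_toCircle one_ne_zero (Circle.coe_injective h)
  by_cases h : ∃ y : TT, fourier 1 y = c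
  · obtain ⟨y, hy⟩ := h
    filter_upwards [ae_ne y] with x hx hc
    exact hx (this hc hy)
  · exact .of_forall fun x hx => h ⟨x, hx⟩

theorem good_pt {z : ℂ} (hz : ‖z‖ = 1) (h1 : z ≠ 1) (h2 : z ≠ -1) :
    (ww z).re = 0 ∧ ww z ≠ 0 := by
  refine ⟨by rw [ww_re, hz]; simp, div_ne_zero ?_ (sub_ne_zero.2 h1.symm)⟩
  intro h
  exact h2 (by linear_combination h)

theorem GG_ae : ∀ᵐ x ∂mu, ‖GG x‖ = 1 ∨ ‖GG x‖ = Real.exp π := by
  filter_upwards [ae_ne_val 1, ae_ne_val (-1)] with x h1 h2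
  obtain ⟨a, b⟩ := good_pt (norm_fourier 1 x) h1 h2
  have c := Complex.abs_arg_le_pi_div_two_iff.2 a.ge
  have d : ¬|(ww (fourier 1 x)).arg| < π / 2 := by
    rw [Complex.abs_arg_lt_pi_div_two_iff, a]
    rintro (h | h)
    · exact lt_irrefl _ h
    · exact b h
  have e : |(ww (fourier 1 x)).arg| = π / 2 := le_antisymm c (not_lt.1 d)
  rw [GG, norm_gg]
  rcases (abs_eq (by positivity)).1 e with f | f
  · left; rw [f]; simp
  · right; rw [f]; congr 1; ring

theorem GG_radial : ∀ᵐ x ∂mu,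
    Tendsto (fun r : ℝ => gg (r * fourier 1 x)) (𝓝[<] 1) (𝓝 (GG x)) := by
  filter_upwards [ae_ne_val 1, ae_ne_val (-1)] with x h1 h2
  obtain ⟨a, b⟩ := good_pt (norm_fourier 1 x) h1 h2
  have c : ww (fourier 1 x) ∈ Complex.slitPlane := by
    right
    intro h
    exact b (Complex.ext a h)
  have d := (gg_diffAt h1 c).continuousAt
  refine d.tendsto.comp (Tendsto.mono_left ?_ nhdsWithin_le_nhds)
  have : Continuous fun r : ℝ => (r : ℂ) * fourier 1 x := by fun_prop
  simpa using this.tendsto 1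

theorem int_circle (f : ℂ → ℂ) (r : ℝ) :
    ∫ x, f (r * fourier 1 x) ∂mu = circleAverage f 0 r := by
  rw [integral_eq_interval _ 0, circleAverage_def, zero_add]
  have e : ∀ t : ℝ, f (r * fourier 1 (t : TT)) = (fun θ => f (circleMap 0 r θ)) (2 * π * t) := by
    intro t
    rw [fourier_coe]
    simp only [circleMap]
    congr 1
    push_cast
    rw [zero_add]
    congr 2; ring
  simp only [e]
  rw [intervalIntegral.integral_comp_mul_left (fun θ => f (circleMap 0 r θ)) (by positivity)]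
  simp

theorem radius_indep {F : ℂ → ℂ} (hF : DifferentiableOn ℂ F (ball 0 1 \ {0})) {ρ r : ℝ}
    (h0 : 0 < ρ) (h1 : ρ ≤ r) (h2 : r < 1) :
    ∫ x, F (r * fourier 1 x) ∂mu = ∫ x, F (ρ * fourier 1 x) ∂mu := by
  rw [int_circle, int_circle, circleAverage_eq_circleIntegral (h0.trans_le h1).ne',
    circleAverage_eq_circleIntegral h0.ne']
  have hs : closedBall (0 : ℂ) r \ ball 0 ρ ⊆ ball 0 1 \ {0} := by
    rintro z ⟨a, b⟩
    refine ⟨closedBall_subset_ball h2 a, ?_⟩
    rintro rfl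
    exact b (mem_ball_self h0)
  congr 1
  refine Complex.circleIntegral_sub_center_inv_smul_eq_of_differentiable_on_annulus_off_countable
    h0 h1 Set.countable_empty (hF.continuousOn.mono hs) fun z hz => ?_
  refine hF.differentiableAt ((isOpen_ball.sdiff isClosed_singleton).mem_nhds (hs ?_))
  exact ⟨ball_subset_closedBall hz.1.1, fun h => hz.1.2 (ball_subset_closedBall h)⟩

theorem norm_gg_zpow_le {z : ℂ} (hz : ‖z‖ ≤ 1) (m : ℤ) : ‖gg z ^ m‖ ≤ Real.exp π ^ m.natAbs := by
  obtain ⟨a, b⟩ := gg_bounds hz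
  rw [norm_zpow]
  obtain ⟨n, rfl | rfl⟩ := m.eq_nat_or_neg
  · simpa using pow_le_pow_left₀ (by positivity) b n
  · rw [zpow_neg, zpow_natCast]
    exact (inv_le_one_of_one_le₀ (one_le_pow₀ a)).trans (one_le_pow₀ (a.trans b))

theorem coef_eq (m k : ℤ) {ρ : ℝ} (h0 : 0 < ρ) (h1 : ρ < 1) :
    ∫ x, fourier k x * GG x ^ m ∂mu =
      ∫ x, ((ρ : ℂ) * fourier 1 x) ^ k * gg (ρ * fourier 1 x) ^ m ∂mu := by
  let F : ℂ → ℂ := fun z => z ^ k * gg z ^ m
  have hF : DifferentiableOn ℂ F (ball 0 1 \ {0}) :=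
    (differentiableOn_id.zpow (Or.inl fun z hz => hz.2)).mul
      ((gg_diff.mono Set.sdiff_subset).zpow (Or.inl fun z _ => gg_ne z))
  have hm : Measurable F := (measurable_id.pow_const k).mul (measurable_gg.pow_const m)
  have hev : ∀ᶠ r : ℝ in 𝓝[<] 1, ρ ≤ r ∧ r < 1 :=
    Filter.Eventually.and (mem_nhdsWithin_of_mem_nhds (Ici_mem_nhds h1)) self_mem_nhdsWithin
  have hlim : Tendsto (fun r : ℝ => ∫ x, F (r * fourier 1 x) ∂mu) (𝓝[<] 1)
      (𝓝 (∫ x, fourier k x * GG x ^ m ∂mu)) := by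
    refine tendsto_integral_filter_of_dominated_convergence
      (fun _ => (ρ ^ k + 1) * Real.exp π ^ m.natAbs) ?_ ?_ (integrable_const _) ?_
    · refine .of_forall fun r => (hm.comp ?_).aestronglyMeasurable
      exact (continuous_const.mul (map_continuous (fourier 1))).measurable
    · filter_upwards [hev] with r hr
      refine .of_forall fun x => ?_
      have hr0 : 0 < r := h0.trans_le hr.1
      have e : ‖(r : ℂ) * fourier 1 x‖ = r := by
        rw [norm_mul, norm_fourier, mul_one, Complex.norm_real, Real.norm_of_nonneg hr0.le]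
      rw [norm_mul, norm_zpow, e]
      refine mul_le_mul ?_ (norm_gg_zpow_le (e.trans_le hr.2.le) m) (norm_nonneg _) (by positivity)
      rcases le_total 0 k with c | c
      · have := zpow_le_one₀ hr0 hr.2.le c
        have := zpow_pos h0 k
        linarith
      · have : r ^ k ≤ ρ ^ k := by
          obtain ⟨j, rfl⟩ := Int.exists_eq_neg_ofNat c
          rw [zpow_neg, zpow_neg, zpow_natCast, zpow_natCast]
          exact inv_anti₀ (by positivity) (pow_le_pow_left₀ h0.le hr.1 j)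
        linarith
    · filter_upwards [GG_radial] with x hx
      have e : (fourier k x : ℂ) = ((1 : ℝ) * fourier 1 x) ^ k := by
        rw [Complex.ofReal_one, one_mul, fourier_one, fourier_apply, AddCircle.toCircle_zsmul]
        simp
      rw [e]
      refine Tendsto.mul (Tendsto.zpow₀ ?_ k (Or.inl ?_)) (hx.zpow₀ m (Or.inl (GG_ne x)))
      · have : Continuous fun r : ℝ => (r : ℂ) * fourier 1 x := by fun_prop
        exact (this.tendsto 1).mono_left nhdsWithin_le_nhds
      · intro h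
        have := congrArg norm h
        simp at this
  refine tendsto_nhds_unique hlim (tendsto_const_nhds.congr' ?_)
  filter_upwards [hev] with r hr
  exact (radius_indep hF h0 hr.1 hr.2).symm

theorem diffContOnCl_scale {F : ℂ → ℂ} (hF : DifferentiableOn ℂ F (ball 0 1)) :
    DiffContOnCl ℂ (fun z => F (((1 / 2 : ℝ) : ℂ) * z)) (ball 0 1) := by
  refine DifferentiableOn.diffContOnCl (hF.comp (by fun_prop) fun z hz => ?_)
  rw [closure_ball _ one_ne_zero, mem_closedBall_zero_iff] at hz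
  rw [mem_ball_zero_iff, norm_mul, Complex.norm_real, Real.norm_of_nonneg (by norm_num)]
  linarith

theorem coef_pos (m : ℤ) {k : ℤ} (hk : 0 < k) : ∫ x, fourier k x * GG x ^ m ∂mu = 0 := by
  rw [coef_eq m k (ρ := 1 / 2) (by norm_num) (by norm_num)]
  lift k to ℕ using hk.le
  have h := mean_value (diffContOnCl_scale (F := fun z => z ^ k * gg z ^ m)
    ((differentiableOn_id.pow k).mul (gg_diff.zpow (Or.inl fun z _ => gg_ne z))))
  simp only [zpow_natCast]
  rw [h, mul_zero, zero_pow (by omega), zero_mul]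

theorem coef_zero (m : ℤ) : ∫ x, GG x ^ m ∂mu = gg 0 ^ m := by
  have h0 := coef_eq m 0 (ρ := 1 / 2) (by norm_num) (by norm_num)
  have h := mean_value (diffContOnCl_scale (F := fun z => gg z ^ m)
    (gg_diff.zpow (Or.inl fun z _ => gg_ne z)))
  simp only [fourier_zero, one_mul, zpow_zero] at h0
  rw [h0, h, mul_zero]

theorem coef_tendsto (k : ℤ) :
    Tendsto (fun n : ℕ => ∫ x, fourier k x * GG x ^ (-(n : ℤ)) ∂mu) atTop (𝓝 0) := by
  simp only [coef_eq _ k (ρ := 1 / 2) (by norm_num) (by norm_num)]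
  have e : ∀ x : TT, ‖((1 / 2 : ℝ) : ℂ) * fourier 1 x‖ = 1 / 2 := fun x => by
    rw [norm_mul, norm_fourier, mul_one, Complex.norm_real, Real.norm_of_nonneg (by norm_num)]
  have hm : Measurable fun x : TT => ((1 / 2 : ℝ) : ℂ) * fourier 1 x :=
    (continuous_const.mul (map_continuous (fourier 1))).measurable
  have := tendsto_integral_of_dominated_convergence (μ := mu) (f := fun _ => (0 : ℂ))
    (F := fun (n : ℕ) x => (((1 / 2 : ℝ) : ℂ) * fourier 1 x) ^ k *
      gg ((1 / 2 : ℝ) * fourier 1 x) ^ (-(n : ℤ))) (fun _ => (1 / 2 : ℝ) ^ k)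
    (fun n => ((hm.pow_const k).mul ((measurable_gg.comp hm).pow_const _)).aestronglyMeasurable)
    (integrable_const _) (fun n => .of_forall fun x => ?_) (.of_forall fun x => ?_)
  · simpa using this
  · rw [norm_mul, norm_zpow, e, norm_zpow, zpow_neg, zpow_natCast]
    have := (gg_bounds (z := ((1 / 2 : ℝ) : ℂ) * fourier 1 x) (by rw [e]; norm_num)).1
    exact mul_le_of_le_one_right (by positivity) (inv_le_one_of_one_le₀ (one_le_pow₀ this))
  · have h1 := one_lt_gg (z := ((1 / 2 : ℝ) : ℂ) * fourier 1 x) (by rw [e]; norm_num)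
    have h2 := tendsto_pow_atTop_nhds_zero_of_norm_lt_one
      (x := (gg (((1 / 2 : ℝ) : ℂ) * fourier 1 x))⁻¹)
      (by rw [norm_inv]; exact inv_lt_one_of_one_lt₀ h1)
    simpa using h2.const_mul ((((1 / 2 : ℝ) : ℂ) * fourier 1 x) ^ k)

end Pool.Agent.H.MP_0d9948_an
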