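import Pool.Agent.H.MP_0d9948_an.A

set_option autoImplicit false
set_option maxHeartbeats 400000

namespace Pool.Agent.H.MP_0d9948_an

open MeasureTheory Filter Topology Metric Real Pool.Agent.H.MP_78daa0_an
open scoped ENNReal ComplexConjugate

theorem coefL_fourierLp (n k : ℤ) : coefL pp n (fourierLp pp k) = if n + k = 0 then 1 else 0 := by
  rw [coefL_congr n (coeFn_fourierLp pp k)]
  split_ifs with h
  · simp only [← fourier_add, h]; simp
  · exact int_fourier_fourier h

theorem ext_fourier {E : Type*} [NormedAddCommGroup E] [NormedSpace ℂ E]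
    {A B : Lp ℂ pp mu →L[ℂ] E} (h : ∀ k, A (fourierLp pp k) = B (fourierLp pp k)) : A = B :=
  ContinuousLinearMap.ext_on (Submodule.dense_iff_topologicalClosure_eq_top.mpr
    (span_fourierLp_closure_eq_top pp_ne_top)) (by rintro _ ⟨k, rfl⟩; exact h k)

theorem exists_proj : ∃ P : Lp ℂ pp mu →L[ℂ] Lp ℂ pp mu,
    (∀ n f, coefL pp n (P f) = if n ≤ 0 then coefL pp n f else 0) ∧
    ∀ φ : Lp ℂ pp mu →L[ℂ] ℂ, (∀ m : ℕ, φ (fourierLp pp m) = 0) → ∀ f ∈ Hardy pp, φ f = 0 := by
  obtain ⟨P, hP⟩ := exists_riesz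
  have a : ∀ n f, coefL pp n (P f) = if n ≤ 0 then coefL pp n f else 0 := by
    intro n f
    have : (coefL pp n).comp P = if n ≤ 0 then coefL pp n else 0 := ext_fourier fun k => by
      rw [ContinuousLinearMap.comp_apply, hP]
      by_cases c1 : 0 ≤ k <;> by_cases c2 : n ≤ 0 <;>
        simp only [c1, c2, if_true, if_false, map_zero, zero_apply,
          coefL_fourierLp]
      · rw [if_neg (by omega)]
      · rw [if_neg (by omega)]
    have := congrArg (fun L : Lp ℂ pp mu →L[ℂ] ℂ => L f) this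
    split_ifs at this ⊢ <;> exact this
  refine ⟨P, a, fun φ hφ f hf => ?_⟩
  have b : φ.comp P = 0 := ext_fourier fun k => by
    rw [ContinuousLinearMap.comp_apply, hP]
    split_ifs with c
    · lift k to ℕ using c
      exact hφ k
    · simp
  have c : P f = f := Lp_ext fun n => by
    rw [a]
    split_ifs with d
    · rfl
    · exact (mem_Hardy.mp hf n (by omega)).symm
  rw [← c]
  exact congrArg (fun L : Lp ℂ pp mu →L[ℂ] ℂ => L f) b

noncomputable def PP : Lp ℂ pp mu →L[ℂ] Lp ℂ pp mu := exists_proj.choose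

theorem coef_PP (n : ℤ) (f : Lp ℂ pp mu) :
    coefL pp n (PP f) = if n ≤ 0 then coefL pp n f else 0 := exists_proj.choose_spec.1 n f

theorem PP_mem (f : Lp ℂ pp mu) : PP f ∈ Hardy pp :=
  mem_Hardy.2 fun n hn => by rw [coef_PP, if_neg (by omega)]

def Bd (f : TT → ℂ) : Prop := Measurable f ∧ ∃ C, ∀ x, ‖f x‖ ≤ C

theorem Bd.memLp {f : TT → ℂ} (h : Bd f) (p : ℝ≥0∞) : MemLp f p mu := by
  obtain ⟨m, C, hC⟩ := h
  exact (memLp_top_of_bound m.aestronglyMeasurable C (.of_forall hC)).mono_exponent le_top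

theorem Bd.int {f : TT → ℂ} (h : Bd f) : Integrable f mu := memLp_one_iff_integrable.1 (h.memLp 1)

theorem Bd.add {f g : TT → ℂ} (hf : Bd f) (hg : Bd g) : Bd fun x => f x + g x := by
  obtain ⟨m, C, hC⟩ := hf
  obtain ⟨m', C', hC'⟩ := hg
  exact ⟨m.add m', C + C', fun x => (norm_add_le _ _).trans (add_le_add (hC x) (hC' x))⟩

theorem Bd.mul {f g : TT → ℂ} (hf : Bd f) (hg : Bd g) : Bd fun x => f x * g x := by
  obtain ⟨m, C, hC⟩ := hf
  obtain ⟨m', C', hC'⟩ := hg
  exact ⟨m.mul m', C * C', fun x => (norm_mul_le _ _).trans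
    (mul_le_mul (hC x) (hC' x) (norm_nonneg _) ((norm_nonneg _).trans (hC x)))⟩

theorem Bd.const (c : ℂ) : Bd fun _ => c := ⟨measurable_const, ‖c‖, fun _ => le_rfl⟩

theorem Bd.conj {f : TT → ℂ} (hf : Bd f) : Bd fun x => conj (f x) := by
  obtain ⟨m, C, hC⟩ := hf
  exact ⟨Complex.continuous_conj.measurable.comp m, C, fun x => by simpa using hC x⟩

theorem Bd.norm {f : TT → ℂ} (hf : Bd f) : Bd fun x => (‖f x‖ : ℂ) := by
  obtain ⟨m, C, hC⟩ := hf
  exact ⟨Complex.measurable_ofReal.comp m.norm, C, fun x => by simpa using hC x⟩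

theorem Bd.pow {f : TT → ℂ} (hf : Bd f) (n : ℕ) : Bd fun x => f x ^ n := by
  induction n with
  | zero => simpa using Bd.const 1
  | succ n ih => simpa [pow_succ] using ih.mul hf

theorem Bd.sum {f : ℕ → TT → ℂ} (hf : ∀ i, Bd (f i)) (k : ℕ) :
    Bd fun x => ∑ i ∈ Finset.range k, f i x := by
  induction k with
  | zero => simpa using Bd.const 0
  | succ n ih => simpa [Finset.sum_range_succ] using ih.add (hf n)

theorem Bd.GG (m : ℤ) : Bd fun x => GG x ^ m :=
  ⟨measurable_GG.pow_const m, _, fun x => norm_gg_zpow_le (norm_fourier 1 x).le m⟩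

theorem Bd.four (k : ℤ) : Bd fun x => fourier k x :=
  ⟨(map_continuous (fourier k)).measurable, 1, fun x => (norm_fourier k x).le⟩

noncomputable def uu (m : ℤ) (x : TT) : ℂ := conj (GG x) ^ m

theorem uu_eq (m : ℤ) (x : TT) : uu m x = conj (GG x ^ m) := by rw [uu, map_zpow₀]

theorem Bd.uu (m : ℤ) : Bd (uu m) := by
  have := (Bd.GG m).conj
  simpa only [← uu_eq] using this

theorem uu_add (m n : ℤ) (x : TT) : uu (m + n) x = uu m x * uu n x :=
  zpow_add₀ (by simpa using GG_ne x) m n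

theorem uu_zero (x : TT) : uu 0 x = 1 := zpow_zero _

theorem norm_uu (m : ℤ) (x : TT) : ‖uu m x‖ = ‖GG x‖ ^ m := by simp [uu]

theorem norm_uu_neg (n : ℕ) (x : TT) : ‖uu (-(n : ℤ)) x‖ ≤ 1 := by
  rw [norm_uu, zpow_neg, zpow_natCast]
  exact inv_le_one_of_one_le₀ (one_le_pow₀ (GG_bounds x).1)

open Classical in
noncomputable def toL (f : TT → ℂ) : Lp ℂ pp mu := if h : MemLp f pp mu then h.toLp f else 0

theorem toL_ae {f : TT → ℂ} (h : Bd f) : toL f =ᵐ[mu] f := by
  rw [toL, dif_pos (h.memLp pp)]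
  exact MemLp.coeFn_toLp _

theorem toL_add {f g : TT → ℂ} (hf : Bd f) (hg : Bd g) :
    toL (fun x => f x + g x) = toL f + toL g := by
  refine Lp.ext ?_
  filter_upwards [toL_ae (hf.add hg), toL_ae hf, toL_ae hg, Lp.coeFn_add (toL f) (toL g)]
    with x a b c d
  rw [a, d, Pi.add_apply, b, c]

theorem toL_smul {f : TT → ℂ} (hf : Bd f) (c : ℂ) : toL (fun x => c * f x) = c • toL f := by
  refine Lp.ext ?_
  filter_upwards [toL_ae ((Bd.const c).mul hf), toL_ae hf, Lp.coeFn_smul c (toL f)] with x a b d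
  rw [a, d, Pi.smul_apply, b, smul_eq_mul]

theorem toL_sum {f : ℕ → TT → ℂ} (hf : ∀ i, Bd (f i)) (k : ℕ) :
    toL (fun x => ∑ i ∈ Finset.range k, f i x) = ∑ i ∈ Finset.range k, toL (f i) := by
  induction k with
  | zero => simpa using toL_smul (Bd.const 0) 0
  | succ n ih => simp only [Finset.sum_range_succ]; rw [toL_add (Bd.sum hf n) (hf n), ih]

noncomputable def Mu (m : ℤ) : Lp ℂ pp mu →L[ℂ] Lp ℂ pp mu :=
  (ContinuousLinearMap.mul ℂ ℂ).holderL mu ∞ pp pp (((Bd.uu m).memLp ∞).toLp _)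

theorem Mu_ae (m : ℤ) (f : Lp ℂ pp mu) : Mu m f =ᵐ[mu] fun x => uu m x * f x := by
  filter_upwards [ContinuousLinearMap.coeFn_holder (r := pp) (ContinuousLinearMap.mul ℂ ℂ)
      (((Bd.uu m).memLp ∞).toLp _) f, ((Bd.uu m).memLp ∞).coeFn_toLp] with x a1 a2
  rw [Mu, ContinuousLinearMap.holderL_apply_apply, a1, a2]
  rfl

theorem Mu_toL (m : ℤ) {f : TT → ℂ} (hf : Bd f) : Mu m (toL f) = toL fun x => uu m x * f x := by
  refine Lp.ext ?_
  filter_upwards [Mu_ae m (toL f), toL_ae hf, toL_ae ((Bd.uu m).mul hf)] with x a b c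
  rw [a, b, c]

theorem norm_Mu_neg (n : ℕ) : ‖Mu (-(n : ℤ))‖ ≤ 1 := by
  refine ContinuousLinearMap.opNorm_le_bound _ zero_le_one fun f => ?_
  refine Lp.norm_le_mul_norm_of_ae_le_mul ?_
  filter_upwards [Mu_ae (-(n : ℤ)) f] with x a
  rw [a, norm_mul]
  exact mul_le_mul_of_nonneg_right (norm_uu_neg n x) (norm_nonneg _)

theorem coef_Mu (m j k : ℤ) : coefL pp j (Mu m (fourierLp pp k)) =
    conj (∫ x, fourier (-j - k) x * GG x ^ m ∂mu) := by
  rw [← integral_conj, coefL_apply]
  refine integral_congr_ae ?_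
  filter_upwards [Mu_ae m (fourierLp pp k), coeFn_fourierLp pp k] with x a b
  rw [a, b, map_mul, ← fourier_neg, uu_eq, show -(-j - k) = j + k by ring, fourier_add]
  ring

theorem PP_Mu_four (m k : ℤ) : PP (Mu m (fourierLp pp k)) =
    ∑ i ∈ Finset.range (k.toNat + 1),
      conj (∫ x, fourier (i - k) x * GG x ^ m ∂mu) • fourierLp pp i := by
  refine Lp_ext fun j => ?_
  rw [coef_PP, map_sum]
  simp only [map_smul, coefL_fourierLp, smul_eq_mul, mul_ite, mul_one, mul_zero]
  split_ifs with h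
  · obtain ⟨i, rfl⟩ := Int.exists_eq_neg_ofNat h
    rw [coef_Mu, neg_neg, Finset.sum_eq_single i]
    · simp
    · intro b _ hb
      rw [if_neg (by omega)]
    · intro hi
      rw [Finset.mem_range] at hi
      rw [coef_pos m (by omega)]
      simp
  · exact (Finset.sum_eq_zero fun i _ => if_neg (by omega)).symm

theorem PP_Mu_PP (m : ℤ) (f : Lp ℂ pp mu) : PP (Mu m (PP f)) = PP (Mu m f) := by
  have : PP.comp ((Mu m).comp PP) = PP.comp (Mu m) := ext_fourier fun k => by
    simp only [ContinuousLinearMap.comp_apply]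
    by_cases hk : 0 ≤ k
    · congr 2
      refine Lp_ext fun j => ?_
      rw [coef_PP, coefL_fourierLp]
      split_ifs <;> first | rfl | omega
    · have e : PP (fourierLp pp k) = 0 := Lp_ext fun j => by
        rw [coef_PP, coefL_fourierLp, map_zero]
        split_ifs <;> first | rfl | omega
      rw [e, map_zero, map_zero, PP_Mu_four]
      refine (Finset.sum_eq_zero fun i _ => ?_).symm
      rw [coef_pos m (by omega)]
      simp
  exact congrArg (fun L : Lp ℂ pp mu →L[ℂ] Lp ℂ pp mu => L f) this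

theorem tendsto_of_dense {E : Type} [NormedAddCommGroup E] [NormedSpace ℂ E]
    (A : ℕ → Lp ℂ pp mu →L[ℂ] E) (C : ℝ) (hC : ∀ n, ‖A n‖ ≤ C)
    (h : ∀ k, Tendsto (fun n => A n (fourierLp pp k)) atTop (𝓝 0)) (f : Lp ℂ pp mu) :
    Tendsto (fun n => A n f) atTop (𝓝 0) := by
  have h0 : 0 ≤ C := (norm_nonneg _).trans (hC 0)
  have he : Equicontinuous fun n => (A n : Lp ℂ pp mu → E) :=
    (LipschitzWith.uniformEquicontinuous _ ⟨C, h0⟩ fun n =>
      (A n).lipschitz.weaken (hC n)).equicontinuous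
  have hcl := he.isClosed_setOfPred_tendsto (l := atTop) (f := fun _ => (0 : E)) continuous_const
  have hd := Submodule.dense_iff_topologicalClosure_eq_top.mpr
    (span_fourierLp_closure_eq_top (T := 1) pp_ne_top)
  refine hcl.closure_subset_iff.2 ?_ (hd f)
  intro g hg
  induction hg using Submodule.span_induction with
  | mem x hx => obtain ⟨k, rfl⟩ := hx; exact h k
  | zero => simp
  | add x y _ _ hx hy => simpa using Tendsto.add hx hy
  | smul c x _ hx => simpa using Tendsto.const_smul hx c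

theorem back_small (f : Lp ℂ pp mu) :
    Tendsto (fun n : ℕ => PP (Mu (-(n : ℤ)) f)) atTop (𝓝 0) := by
  refine tendsto_of_dense (fun n => PP.comp (Mu (-(n : ℤ)))) ‖PP‖ (fun n => ?_) (fun k => ?_) f
  · exact (ContinuousLinearMap.opNorm_comp_le _ _).trans
      (mul_le_of_le_one_right (norm_nonneg _) (norm_Mu_neg n))
  · simp only [ContinuousLinearMap.comp_apply, PP_Mu_four]
    have := tendsto_finsetSum (Finset.range (k.toNat + 1)) fun (i : ℕ) _ =>
      ((Complex.continuous_conj.tendsto _).comp (coef_tendsto (i - k))).smul_const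
        (fourierLp (T := 1) pp i)
    simpa using this

theorem osc_neg {H : TT → ℂ} (hH : Bd H) :
    Tendsto (fun n : ℕ => ∫ x, uu (-(n : ℤ)) x * H x ∂mu) atTop (𝓝 0) := by
  have := ((coefL pp 0).continuous.tendsto _).comp (back_small (toL H))
  rw [map_zero] at this
  refine this.congr fun n => ?_
  rw [Function.comp_apply, coef_PP, if_pos le_rfl, Mu_toL _ hH,
    coefL_congr 0 (toL_ae ((Bd.uu _).mul hH))]
  simp

def Sup (h : TT → ℂ) : Prop := ∀ x, ‖GG x‖ ≠ 1 → h x = 0

theorem conj_uu {x : TT} (hx : ‖GG x‖ = 1) (m : ℤ) : conj (uu m x) = uu (-m) x := by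
  have h : uu (-m) x * uu m x = 1 := by rw [← uu_add, neg_add_cancel, uu_zero]
  have h2 : conj (uu m x) * uu m x = 1 := by
    rw [Complex.conj_mul', norm_uu, hx]; simp
  have h3 : uu m x ≠ 0 := right_ne_zero_of_mul_eq_one h
  exact mul_right_cancel₀ h3 (h2.trans h.symm)

theorem osc {H : TT → ℂ} (hH : Bd H) (hs : Sup H) {s : ℤ} (h0 : s ≠ 0) :
    Tendsto (fun n : ℕ => ∫ x, uu (s * n) x * H x ∂mu) atTop (𝓝 0) := by
  obtain ⟨t, rfl | rfl⟩ := s.eq_nat_or_neg
  · have ht : Tendsto (fun n : ℕ => t * n) atTop atTop :=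
      tendsto_id.const_mul_atTop' (Nat.pos_of_ne_zero (by rintro rfl; simp at h0))
    have := (Complex.continuous_conj.tendsto _).comp ((osc_neg hH.conj).comp ht)
    rw [map_zero] at this
    refine this.congr fun n => ?_
    simp only [Function.comp_apply]
    rw [← integral_conj]
    refine integral_congr_ae (.of_forall fun x => ?_)
    by_cases hx : ‖GG x‖ = 1
    · simp only [map_mul, Complex.conj_conj]
      rw [conj_uu hx]
      simp
    · simp [hs x hx]
  · have ht : Tendsto (fun n : ℕ => t * n) atTop atTop :=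
      tendsto_id.const_mul_atTop' (Nat.pos_of_ne_zero (by rintro rfl; simp at h0))
    refine ((osc_neg hH).comp ht).congr fun n => ?_
    simp

end Pool.Agent.H.MP_0d9948_an
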