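import Pool.Agent.H.MP_0d9948_an.B

set_option autoImplicit false
set_option maxHeartbeats 400000

namespace Pool.Agent.H.MP_0d9948_an

open MeasureTheory Filter Topology Metric Real Pool.Agent.H.MP_78daa0_an
open scoped ENNReal ComplexConjugate

noncomputable def Q (f : TT → ℂ) : ℝ := √(∫ x, ‖f x‖ ^ 4 ∂mu)

theorem Q_nonneg (f : TT → ℂ) : 0 ≤ Q f := Real.sqrt_nonneg _

theorem Q_sq (f : TT → ℂ) : Q f ^ 2 = ∫ x, ‖f x‖ ^ 4 ∂mu :=
  Real.sq_sqrt (integral_nonneg fun x => by positivity)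

theorem Q_zero : Q (fun _ => 0) = 0 := by simp [Q]

theorem Q_smul (c : ℂ) (f : TT → ℂ) : Q (fun x => c * f x) = ‖c‖ ^ 2 * Q f := by
  simp only [Q, norm_mul, mul_pow]
  rw [integral_const_mul, Real.sqrt_mul (by positivity),
    show ‖c‖ ^ 4 = (‖c‖ ^ 2) ^ 2 by ring, Real.sqrt_sq (by positivity)]

theorem Bd.int_real {f : TT → ℂ} (h : Bd f) : Integrable (fun x => (f x).re) mu := h.int.re

theorem Bd.int_norm_pow {f : TT → ℂ} (h : Bd f) (n : ℕ) : Integrable (fun x => ‖f x‖ ^ n) mu := by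
  have := (h.pow n).int.norm
  simpa using this

theorem cs {F w : TT → ℂ} (hF : Bd F) (hw : Bd w) :
    ∫ x, ‖F x‖ ^ 2 * ‖w x‖ ^ 2 ∂mu ≤ Q F * Q w := by
  have m : ∀ {f : TT → ℂ}, Bd f → MemLp (fun x => ‖f x‖ ^ 2) (ENNReal.ofReal 2) mu := by
    intro f hf
    have := ((hf.pow 2).memLp (ENNReal.ofReal 2)).norm
    simpa using this
  have := integral_mul_le_Lp_mul_Lq_of_nonneg (μ := mu) Real.HolderConjugate.two_two
    (f := fun x => ‖F x‖ ^ 2) (g := fun x => ‖w x‖ ^ 2) (.of_forall fun x => by positivity)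
    (.of_forall fun x => by positivity) (m hF) (m hw)
  refine this.trans_eq ?_
  have e : ∀ f : TT → ℂ, (∫ x, (‖f x‖ ^ 2) ^ (2 : ℝ) ∂mu) ^ (1 / 2 : ℝ) = Q f := by
    intro f
    rw [Q, Real.sqrt_eq_rpow]
    congr 2
    ext x
    rw [Real.rpow_two]; ring
  rw [e, e]

theorem ptw (F w v : ℂ) (hv : ‖v‖ = 1) : ‖F + v * w‖ ^ 4 =
    ‖F‖ ^ 4 + 4 * (‖F‖ ^ 2 * ‖w‖ ^ 2) + ‖w‖ ^ 4 +
      4 * (v * ((((‖F‖ : ℂ) ^ 2 + (‖w‖ : ℂ) ^ 2)) * (w * conj F))).re +
        2 * (v * v * (w * conj F) ^ 2).re := by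
  set z := v * w * conj F with hz
  have h1 : ‖F + v * w‖ ^ 2 = ‖F‖ ^ 2 + ‖w‖ ^ 2 + 2 * z.re := by
    rw [← Complex.normSq_eq_norm_sq, add_comm F, Complex.normSq_add, Complex.normSq_eq_norm_sq,
      Complex.normSq_eq_norm_sq, norm_mul, hv, one_mul]
    ring
  have h2 : ‖z‖ ^ 2 = ‖F‖ ^ 2 * ‖w‖ ^ 2 := by
    rw [hz, norm_mul, norm_mul, hv, Complex.norm_conj]; ring
  have h3 : (v * v * (w * conj F) ^ 2).re = z.re ^ 2 - z.im ^ 2 := by
    rw [show v * v * (w * conj F) ^ 2 = z * z by rw [hz]; ring, Complex.mul_re]; ring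
  have h4 : (v * ((((‖F‖ : ℂ) ^ 2 + (‖w‖ : ℂ) ^ 2)) * (w * conj F))).re =
      (‖F‖ ^ 2 + ‖w‖ ^ 2) * z.re := by
    rw [show v * ((((‖F‖ : ℂ) ^ 2 + (‖w‖ : ℂ) ^ 2)) * (w * conj F)) =
      ((‖F‖ ^ 2 + ‖w‖ ^ 2 : ℝ) : ℂ) * z by rw [hz]; push_cast; ring, Complex.re_ofReal_mul]
  have h5 : ‖z‖ ^ 2 = z.re ^ 2 + z.im ^ 2 := by
    rw [← Complex.normSq_eq_norm_sq, Complex.normSq_apply]; ring
  rw [h3, h4, show ‖F + v * w‖ ^ 4 = (‖F + v * w‖ ^ 2) ^ 2 by ring, h1]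
  nlinarith

theorem step {F w : TT → ℂ} (hF : Bd F) (hw : Bd w) (hs : Sup w) {s : ℤ} (h0 : s ≠ 0) {ε : ℝ}
    (hε : 0 < ε) : ∀ᶠ n : ℕ in atTop, Q (fun x => F x + uu (s * n) x * w x) ≤ Q F + 2 * Q w + ε := by
  let H1 : TT → ℂ := fun x => ((‖F x‖ : ℂ) ^ 2 + (‖w x‖ : ℂ) ^ 2) * (w x * conj (F x))
  let H2 : TT → ℂ := fun x => (w x * conj (F x)) ^ 2
  have b1 : Bd H1 := ((hF.norm.pow 2).add (hw.norm.pow 2)).mul (hw.mul hF.conj)
  have b2 : Bd H2 := (hw.mul hF.conj).pow 2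
  have t1 := osc b1 (fun x hx => by simp [H1, hs x hx]) h0
  have t2 := osc b2 (fun x hx => by simp [H2, hs x hx]) (s := 2 * s) (by omega)
  have i2 : Integrable (fun x => ‖F x‖ ^ 2 * ‖w x‖ ^ 2) mu := by
    simpa [mul_pow] using (hF.mul hw).int_norm_pow 2
  have e : ∀ n : ℕ, ∫ x, ‖F x + uu (s * n) x * w x‖ ^ 4 ∂mu =
      Q F ^ 2 + 4 * ∫ x, ‖F x‖ ^ 2 * ‖w x‖ ^ 2 ∂mu + Q w ^ 2 +
        4 * (∫ x, uu (s * n) x * H1 x ∂mu).re + 2 * (∫ x, uu (2 * s * n) x * H2 x ∂mu).re := by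
    intro n
    have j1 := ((Bd.uu (s * n)).mul b1).int
    have j2 := ((Bd.uu (2 * s * n)).mul b2).int
    have k1 := integral_re j1
    have k2 := integral_re j2
    simp only [RCLike.re_to_complex] at k1 k2
    have a1 : Integrable (fun x => ‖F x‖ ^ 4 + 4 * (‖F x‖ ^ 2 * ‖w x‖ ^ 2)) mu :=
      (hF.int_norm_pow 4).add (i2.const_mul 4)
    have a2 : Integrable (fun x => ‖F x‖ ^ 4 + 4 * (‖F x‖ ^ 2 * ‖w x‖ ^ 2) + ‖w x‖ ^ 4) mu :=
      a1.add (hw.int_norm_pow 4)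
    have a3 : Integrable (fun x => 4 * (uu (s * n) x * H1 x).re) mu := j1.re.const_mul 4
    have a4 : Integrable (fun x => 2 * (uu (2 * s * n) x * H2 x).re) mu := j2.re.const_mul 2
    have a5 : Integrable (fun x => ‖F x‖ ^ 4 + 4 * (‖F x‖ ^ 2 * ‖w x‖ ^ 2) + ‖w x‖ ^ 4 +
      4 * (uu (s * n) x * H1 x).re) mu := a2.add a3
    rw [Q_sq, Q_sq, ← k1, ← k2, ← integral_const_mul, ← integral_const_mul, ← integral_const_mul,
      ← integral_add (hF.int_norm_pow 4) (i2.const_mul 4),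
      ← integral_add a1 (hw.int_norm_pow 4), ← integral_add a2 a3, ← integral_add a5 a4]
    refine integral_congr_ae (.of_forall fun x => ?_)
    by_cases hx : ‖GG x‖ = 1
    · have := ptw (F x) (w x) (uu (s * n) x) (by rw [norm_uu, hx]; simp)
      rw [← uu_add, show s * n + s * n = 2 * s * n by ring] at this
      exact this
    · simp [H1, H2, hs x hx]
  have t3 : Tendsto (fun n : ℕ => ∫ x, ‖F x + uu (s * n) x * w x‖ ^ 4 ∂mu) atTop
      (𝓝 (Q F ^ 2 + 4 * ∫ x, ‖F x‖ ^ 2 * ‖w x‖ ^ 2 ∂mu + Q w ^ 2 + 4 * (0 : ℂ).re +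
        2 * (0 : ℂ).re)) := by
    simp only [e]
    exact (tendsto_const_nhds.add (((Complex.continuous_re.tendsto _).comp t1).const_mul 4)).add
      (((Complex.continuous_re.tendsto _).comp t2).const_mul 2)
  have lt : Q F ^ 2 + 4 * ∫ x, ‖F x‖ ^ 2 * ‖w x‖ ^ 2 ∂mu + Q w ^ 2 + 4 * (0 : ℂ).re +
      2 * (0 : ℂ).re < (Q F + 2 * Q w + ε) ^ 2 := by
    have := cs hF hw
    have a := Q_nonneg F
    have b := Q_nonneg w
    simp only [Complex.zero_re]
    nlinarith [mul_nonneg a hε.le, mul_nonneg b hε.le, mul_pos hε hε, mul_nonneg b b]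
  filter_upwards [t3.eventually (gt_mem_nhds lt)] with n hn
  have a := Q_nonneg F
  have b := Q_nonneg w
  exact Real.sqrt_le_iff.2 ⟨by positivity, hn.le⟩

theorem norm_toL_le {f : TT → ℂ} (hf : Bd f) : ‖toL f‖ ≤ √(Q f) := by
  have h4 : pp ≤ 4 := by
    rw [pp, ← ENNReal.ofReal_ofNat]
    exact ENNReal.ofReal_le_ofReal (by norm_num)
  have h1 := eLpNorm_le_eLpNorm_of_exponent_le (μ := mu) h4 hf.1.aestronglyMeasurable
  rw [(hf.memLp 4).eLpNorm_eq_integral_rpow_norm (by norm_num) (by norm_num)] at h1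
  rw [Lp.norm_def, eLpNorm_congr_ae (toL_ae hf)]
  refine (ENNReal.toReal_le_of_le_ofReal (by positivity) h1).trans_eq ?_
  have h0 : 0 ≤ ∫ x, ‖f x‖ ^ 4 ∂mu := integral_nonneg fun x => by positivity
  rw [Q, Real.sqrt_eq_rpow, Real.sqrt_eq_rpow, ← Real.rpow_mul h0]
  norm_num

theorem norm_toL_bound {f : TT → ℂ} (hf : Bd f) {c : ℝ} (hc : 0 ≤ c)
    (h : ∀ᵐ x ∂mu, ‖f x‖ ≤ c) : ‖toL f‖ ≤ c := by
  have := Lp.norm_le_of_ae_bound (f := toL f) (C := c) hc (by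
    filter_upwards [toL_ae hf, h] with x a b
    rw [a]; exact b)
  simpa [measureUnivNNReal] using this

theorem toL_four (k : ℤ) : toL (fun x => fourier k x) = fourierLp pp k :=
  Lp.ext ((toL_ae (Bd.four k)).trans (coeFn_fourierLp pp k).symm)

def MM : Submodule ℂ (Lp ℂ pp mu) where
  carrier := {f | ∃ h, Bd h ∧ Sup h ∧ f = PP (toL h)}
  add_mem' := by
    rintro _ _ ⟨h, a, b, rfl⟩ ⟨k, c, d, rfl⟩
    exact ⟨fun x => h x + k x, a.add c, fun x hx => by simp [b x hx, d x hx],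
      by rw [toL_add a c, map_add]⟩
  zero_mem' := ⟨fun _ => 0, Bd.const 0, fun _ _ => rfl, by
    have := toL_smul (Bd.const 0) 0
    simp only [zero_smul, mul_zero] at this
    rw [this, map_zero]⟩
  smul_mem' := by
    rintro c _ ⟨h, a, b, rfl⟩
    exact ⟨fun x => c * h x, (Bd.const c).mul a, fun x hx => by simp [b x hx],
      by rw [toL_smul a, map_smul]⟩

theorem MM_dense (f : Lp ℂ pp mu) (hf : f ∈ Hardy pp) : f ∈ closure (MM : Set (Lp ℂ pp mu)) := by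
  refine mem_closure_of_dual MM f fun φ hφ => exists_proj.choose_spec.2 φ (fun r => ?_) f hf
  induction r using Nat.strong_induction_on with
  | _ r ih =>
  have mA : MeasurableSet {x : TT | ‖GG x‖ = 1} :=
    measurableSet_eq_fun measurable_GG.norm measurable_const
  have key : ∀ m : ℕ, ‖φ (fourierLp pp r)‖ ≤ ‖φ‖ * ‖PP‖ * (Real.exp (π / 2))⁻¹ ^ m := by
    intro m
    let g : TT → ℂ := fun x => uu (-(m : ℤ)) x * fourier r x
    have bg : Bd g := (Bd.uu _).mul (Bd.four r)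
    obtain ⟨C, hC⟩ := bg.2
    have hC0 : 0 ≤ C := (norm_nonneg _).trans (hC 0)
    have b1 : Bd ({x : TT | ‖GG x‖ = 1}.indicator g) :=
      ⟨bg.1.indicator mA, C, fun x => (norm_indicator_le_norm_self _ _).trans (hC x)⟩
    have b2 : Bd ({x : TT | ‖GG x‖ = 1}ᶜ.indicator g) :=
      ⟨bg.1.indicator mA.compl, C, fun x => (norm_indicator_le_norm_self _ _).trans (hC x)⟩
    have e1 : Mu (-(m : ℤ)) (fourierLp pp r) = toL ({x : TT | ‖GG x‖ = 1}.indicator g) +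
        toL ({x : TT | ‖GG x‖ = 1}ᶜ.indicator g) := by
      rw [← toL_add b1 b2, ← toL_four, Mu_toL _ (Bd.four r)]
      congr 1
      ext x
      exact (Set.indicator_self_add_compl_apply _ g x).symm
    have e2 : φ (PP (Mu (-(m : ℤ)) (fourierLp pp r))) =
        conj (gg 0 ^ (-(m : ℤ))) * φ (fourierLp pp r) := by
      rw [PP_Mu_four, map_sum, Int.toNat_natCast, Finset.sum_range_succ, Finset.sum_eq_zero]
      · simp only [sub_self, fourier_zero, one_mul, coef_zero, map_smul, smul_eq_mul, zero_add]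
      · intro i hi
        rw [map_smul, ih i (Finset.mem_range.1 hi), smul_zero]
    have e3 : φ (PP (toL ({x : TT | ‖GG x‖ = 1}.indicator g))) = 0 :=
      hφ _ ⟨_, b1, fun x hx => Set.indicator_of_notMem (s := {x : TT | ‖GG x‖ = 1}) hx _, rfl⟩
    have e4 : ‖toL ({x : TT | ‖GG x‖ = 1}ᶜ.indicator g)‖ ≤ (Real.exp π)⁻¹ ^ m := by
      refine norm_toL_bound b2 (by positivity) ?_
      filter_upwards [GG_ae] with x hx
      by_cases c : ‖GG x‖ = 1
      · rw [Set.indicator_of_notMem (by simpa using c), norm_zero]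
        positivity
      · rw [Set.indicator_of_mem (by simpa using c), norm_mul, norm_fourier, norm_uu,
          hx.resolve_left c]
        simp
    rw [e1, map_add, map_add, e3, zero_add] at e2
    have e5 := (φ.le_opNorm _).trans (mul_le_mul_of_nonneg_left ((PP.le_opNorm _).trans
      (mul_le_mul_of_nonneg_left e4 (norm_nonneg _))) (norm_nonneg _))
    rw [e2, norm_mul, Complex.norm_conj, norm_zpow, norm_gg_zero, zpow_neg, zpow_natCast,
      show Real.exp π = Real.exp (π / 2) * Real.exp (π / 2) by rw [← Real.exp_add]; ring_nf,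
      mul_inv, mul_pow, ← inv_pow] at e5
    have hp : 0 < (Real.exp (π / 2))⁻¹ ^ m := by positivity
    refine le_of_mul_le_mul_left (e5.trans_eq ?_) hp
    ring
  have lim : Tendsto (fun m : ℕ => ‖φ‖ * ‖PP‖ * (Real.exp (π / 2))⁻¹ ^ m) atTop (𝓝 0) := by
    have := (tendsto_pow_atTop_nhds_zero_of_lt_one (r := (Real.exp (π / 2))⁻¹) (by positivity)
      (inv_lt_one_of_one_lt₀ (Real.one_lt_exp_iff.2 (by positivity)))).const_mul (‖φ‖ * ‖PP‖)
    simpa using this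
  exact norm_le_zero_iff.1 (ge_of_tendsto' lim key)

theorem exists_family : ∃ d : ℕ → TT → ℂ, (∀ i, Bd (d i) ∧ Sup (d i)) ∧
    ∀ f ∈ Hardy pp, ∀ ε > 0, ∃ i, ‖PP (toL (d i)) - f‖ < ε := by
  have : Fact (pp ≠ ∞) := ⟨pp_ne_top⟩
  obtain ⟨t, ht, hc, hd⟩ := (TopologicalSpace.IsSeparable.of_separableSpace
    (MM : Set (Lp ℂ pp mu))).exists_countable_dense_subset
  have hne : t.Nonempty := by
    by_contra h
    rw [Set.not_nonempty_iff_eq_empty] at h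
    have := hd MM.zero_mem
    simp [h] at this
  obtain ⟨e, rfl⟩ := hc.exists_eq_range hne
  have h : ∀ i, ∃ h, Bd h ∧ Sup h ∧ e i = PP (toL h) := fun i => ht ⟨i, rfl⟩
  choose d h1 h2 h3 using h
  refine ⟨d, fun i => ⟨h1 i, h2 i⟩, fun f hf ε hε => ?_⟩
  have := closure_mono hd (MM_dense f hf)
  rw [closure_closure, Metric.mem_closure_iff] at this
  obtain ⟨_, ⟨i, rfl⟩, hi⟩ := this ε hε
  exact ⟨i, by rw [← h3, ← dist_eq_norm, dist_comm]; exact hi⟩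

theorem exists_rec (P : ℕ → (ℕ → ℕ) → ℕ → Prop)
    (hc : ∀ k n n' N, (∀ j < k, n j = n' j) → P k n N → P k n' N) (h : ∀ k n, ∃ N, P k n N) :
    ∃ n : ℕ → ℕ, ∀ k, P k n (n k) := by
  choose c hcs using h
  let f : ℕ → ℕ → ℕ := fun k => Nat.rec (fun _ => 0) (fun k g => Function.update g k (c k g)) k
  have hf : ∀ k, f (k + 1) = Function.update (f k) k (c k (f k)) := fun _ => rfl
  have e : ∀ k j, j < k → f k j = f (j + 1) j := by
    intro k
    induction k with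
    | zero => intro j hj; omega
    | succ k ih =>
      intro j hj
      rcases Nat.lt_succ_iff_lt_or_eq.1 hj with h | rfl
      · rw [hf, Function.update_of_ne h.ne, ih j h]
      · rfl
  refine ⟨fun j => f (j + 1) j, fun k => hc k (f k) _ _ (fun j hj => e k j hj) ?_⟩
  simp only [hf, Function.update_self]
  exact hcs k (f k)

theorem dense_weak {X : Type} [NormedAddCommGroup X] [NormedSpace ℂ X] (S : ℕ → X)
    (h : ∀ (y : X) (Φ : Finset (X →L[ℂ] ℂ)) (ε : ℝ), 0 < ε → ∃ n, ∀ φ ∈ Φ, ‖φ (S n) - φ y‖ < ε) :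
    Dense (Set.range fun n => toWeakSpace ℂ X (S n)) := by
  intro y
  rw [mem_closure_iff_nhds]
  intro t ht
  obtain ⟨u, hu, hut⟩ := (mem_nhds_induced
    (fun (x : WeakSpace ℂ X) (φ : X →L[ℂ] ℂ) => (topDualPairing ℂ X).flip x φ) y t).1 ht
  rw [nhds_pi, Filter.mem_pi'] at hu
  obtain ⟨I, s, hs, hI⟩ := hu
  have ev : ∀ᶠ ε : ℝ in 𝓝[>] 0, ∀ φ ∈ I, ball ((topDualPairing ℂ X).flip y φ) ε ⊆ s φ :=
    (eventually_all_finset I).2 fun φ _ => (eventually_ball_subset (hs φ)).filter_mono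
      nhdsWithin_le_nhds
  obtain ⟨ε, h1, h2⟩ := (ev.and self_mem_nhdsWithin).exists
  obtain ⟨n, hn⟩ := h ((toWeakSpace ℂ X).symm y) I ε h2
  exact ⟨_, hut (hI fun φ hφ => h1 φ hφ (mem_ball_iff_norm.2 (hn φ hφ))), n, rfl⟩

end Pool.Agent.H.MP_0d9948_an
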