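import Pool.Agent.H.MP_0d9948_an.C

set_option autoImplicit false
set_option maxHeartbeats 400000

namespace Pool.Agent.H.MP_0d9948_an

open MeasureTheory Filter Topology Metric Real Pool.Agent.H.MP_78daa0_an
open scoped ENNReal ComplexConjugate

noncomputable def SS (h : ℕ → TT → ℂ) (n : ℕ → ℕ) (k : ℕ) (x : TT) : ℂ :=
  ∑ j ∈ Finset.range k, uu (-(n j : ℤ)) x * h j x

def cf : Fin 5 → ℂ := ![0, 1, -1, Complex.I, -Complex.I]

noncomputable def FF (h : ℕ → TT → ℂ) (n : ℕ → ℕ) (σ : ℕ → Fin 5) (k : ℕ) (x : TT) : ℂ :=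
  ∑ i ∈ Finset.range k, uu (n i) x * (cf (σ i) / (i + 1) * SS h n i x)

theorem cf_sq (c : Fin 5) : ‖cf c‖ ^ 2 = ‖cf c‖ := by
  fin_cases c <;> simp [cf]

theorem cf_le (c : Fin 5) : ‖cf c‖ ≤ 1 := by
  fin_cases c <;> simp [cf]

theorem exists_cf (z : ℂ) : ∃ c : Fin 5, ‖z‖ / 2 ≤ (cf c * z).re := by
  have h := Complex.norm_le_abs_re_add_abs_im z
  by_cases a : |z.im| ≤ |z.re|
  · rcases le_total 0 z.re with b | b
    · exact ⟨1, by rw [abs_of_nonneg b] at h a; simp [cf]; linarith⟩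
    · exact ⟨2, by rw [abs_of_nonpos b] at h a; simp [cf]; linarith⟩
  · push Not at a
    rcases le_total 0 z.im with b | b
    · exact ⟨4, by rw [abs_of_nonneg b] at h a; simp [cf]; linarith⟩
    · exact ⟨3, by rw [abs_of_nonpos b] at h a; simp [cf]; linarith⟩

section
variable {h : ℕ → TT → ℂ} (hb : ∀ k, Bd (h k)) (hs : ∀ k, Sup (h k))
include hb

theorem Bd_SS (n : ℕ → ℕ) (k : ℕ) : Bd (SS h n k) :=
  Bd.sum (fun j => (Bd.uu _).mul (hb j)) k

theorem Bd_FF (n : ℕ → ℕ) (σ : ℕ → Fin 5) (k : ℕ) : Bd (FF h n σ k) :=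
  Bd.sum (fun j => (Bd.uu _).mul ((Bd.const _).mul (Bd_SS hb n j))) k

omit hb in
include hs in
theorem Sup_SS (n : ℕ → ℕ) (k : ℕ) : Sup (SS h n k) := fun x hx =>
  Finset.sum_eq_zero fun j _ => by rw [hs j x hx, mul_zero]

omit hb in
theorem fin_FF (n : ℕ → ℕ) (k : ℕ) : (Set.range fun σ => FF h n σ k).Finite := by
  induction k with
  | zero =>
    refine (Set.finite_singleton fun _ => 0).subset ?_
    rintro _ ⟨σ, rfl⟩
    ext x; simp [FF]
  | succ k ih =>
    refine (Set.Finite.image2 (fun (f : TT → ℂ) (c : Fin 5) (x : TT) =>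
      f x + uu (n k) x * (cf c / (k + 1) * SS h n k x)) ih Set.finite_univ).subset ?_
    rintro _ ⟨σ, rfl⟩
    refine ⟨_, ⟨σ, rfl⟩, σ k, trivial, ?_⟩
    ext x; simp [FF, Finset.sum_range_succ]

omit hb in
theorem SS_congr {n n' : ℕ → ℕ} {k : ℕ} (e : ∀ j < k, n j = n' j) : SS h n k = SS h n' k := by
  ext x
  exact Finset.sum_congr rfl fun j hj => by rw [e j (Finset.mem_range.1 hj)]

omit hb in
theorem FF_congr {n n' : ℕ → ℕ} {k : ℕ} (e : ∀ j < k, n j = n' j) (σ : ℕ → Fin 5) :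
    FF h n σ k = FF h n' σ k := by
  ext x
  refine Finset.sum_congr rfl fun j hj => ?_
  rw [Finset.mem_range] at hj
  rw [e j hj, SS_congr (n' := n') fun i hi => e i (hi.trans hj)]

omit hb in
theorem ev_small (c : ℕ) (f : Lp ℂ pp mu) {ε : ℝ} (hε : 0 < ε) :
    ∀ᶠ N : ℕ in atTop, ‖PP (Mu ((c : ℤ) - N) f)‖ ≤ ε := by
  have := (tendsto_zero_iff_norm_tendsto_zero.1 ((back_small f).comp
    (tendsto_sub_atTop_nat c))).eventually (ge_mem_nhds hε)
  filter_upwards [this, eventually_ge_atTop c] with N a b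
  simp only [Function.comp_apply] at a
  rwa [Nat.cast_sub b, neg_sub] at a

include hs in
theorem exists_seq : ∃ n : ℕ → ℕ, ∀ k,
    Q (SS h n (k + 1)) ≤ Q (SS h n k) + 2 * Q (h k) + 1 ∧
    (∀ σ, Q (FF h n σ (k + 1)) ≤ Q (FF h n σ k) +
      2 * Q (fun x => cf (σ k) / (k + 1) * SS h n k x) + (1 / 2) ^ k) ∧
    (∀ j < k, ‖PP (Mu ((n j : ℤ) - n k) (toL (h k)))‖ ≤ (1 / 2) ^ k) ∧
    ‖PP (Mu (-(n k : ℤ)) (toL (h k)))‖ ≤ (1 / 2) ^ k := by
  refine (exists_rec (fun k n N =>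
    Q (fun x => SS h n k x + uu (-1 * N) x * h k x) ≤ Q (SS h n k) + 2 * Q (h k) + 1 ∧
    (∀ σ, Q (fun x => FF h n σ k x + uu (1 * N) x * (cf (σ k) / (k + 1) * SS h n k x)) ≤
      Q (FF h n σ k) + 2 * Q (fun x => cf (σ k) / (k + 1) * SS h n k x) + (1 / 2) ^ k) ∧
    (∀ j < k, ‖PP (Mu ((n j : ℤ) - N) (toL (h k)))‖ ≤ (1 / 2) ^ k) ∧
    ‖PP (Mu (((0 : ℕ) : ℤ) - N) (toL (h k)))‖ ≤ (1 / 2) ^ k) ?_ ?_).imp fun n hn k => ?_
  rotate_right
  · obtain ⟨a, b, c, d⟩ := hn k
    refine ⟨?_, fun σ => ?_, c, by simpa using d⟩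
    · convert a using 2
      ext x; simp [SS, Finset.sum_range_succ]
    · convert b σ using 2
      ext x; simp [FF, Finset.sum_range_succ]
  · intro k n n' N e ⟨a, b, c, d⟩
    rw [SS_congr e] at a
    refine ⟨a, fun σ => ?_, fun j hj => e j hj ▸ c j hj, d⟩
    have := b σ
    rwa [SS_congr e, FF_congr e] at this
  · intro k n
    have p : (0 : ℝ) < (1 / 2) ^ k := by positivity
    have a := step (Bd_SS hb n k) (hb k) (hs k) (s := -1) (by norm_num) one_pos
    have b : ∀ᶠ N : ℕ in atTop, ∀ f ∈ Set.range fun σ => FF h n σ k, ∀ c : Fin 5,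
        Q (fun x => f x + uu (1 * N) x * (cf c / (k + 1) * SS h n k x)) ≤
          Q f + 2 * Q (fun x => cf c / (k + 1) * SS h n k x) + (1 / 2) ^ k := by
      refine (eventually_all_finite (fin_FF n k)).2 ?_
      rintro _ ⟨σ, rfl⟩
      refine eventually_all.2 fun c => ?_
      exact step (Bd_FF hb n σ k) ((Bd.const _).mul (Bd_SS hb n k))
        (fun x hx => by simp only [Sup_SS hs n k x hx, mul_zero]) one_ne_zero p
    have c : ∀ᶠ N : ℕ in atTop, ∀ j ∈ Finset.range k,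
        ‖PP (Mu ((n j : ℤ) - N) (toL (h k)))‖ ≤ (1 / 2) ^ k :=
      (eventually_all_finset _).2 fun j _ => ev_small _ _ p
    obtain ⟨N, h1, h2, h3, h4⟩ := (a.and (b.and (c.and (ev_small 0 (toL (h k)) p)))).exists
    exact ⟨N, h1, fun σ => h2 _ ⟨σ, rfl⟩ _, fun j hj => h3 j (Finset.mem_range.2 hj), h4⟩

end

theorem Mu_Mu (m n : ℤ) (f : Lp ℂ pp mu) : Mu m (Mu n f) = Mu (m + n) f := by
  refine Lp.ext ?_
  filter_upwards [Mu_ae m (Mu n f), Mu_ae n f, Mu_ae (m + n) f] with x a b c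
  rw [a, b, c, uu_add, mul_assoc]

theorem Mu_zero (f : Lp ℂ pp mu) : Mu 0 f = f := by
  refine Lp.ext ?_
  filter_upwards [Mu_ae 0 f] with x a
  rw [a, uu_zero, one_mul]

noncomputable def T0 : Lp ℂ pp mu →L[ℂ] Lp ℂ pp mu := PP.comp (Mu 1)

theorem T0_pow (N : ℕ) (f : Lp ℂ pp mu) : (T0 ^ N) (PP f) = PP (Mu N f) := by
  induction N with
  | zero => simp [Mu_zero]
  | succ N ih =>
    rw [pow_succ', mul_apply_eq_comp, ih, T0, ContinuousLinearMap.comp_apply,
      PP_Mu_PP, Mu_Mu]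
    push_cast
    rw [add_comm]

theorem val_two (m j : ℕ) : padicValNat 2 (2 ^ m * (2 * j + 1)) = m := by
  rw [padicValNat.mul (by positivity) (by omega), padicValNat.prime_pow,
    padicValNat.eq_zero_of_not_dvd (by omega), add_zero]

theorem val_fact (k : ℕ) : padicValNat 2 k.factorial ≤ k := by
  have := sub_one_mul_padicValNat_factorial (p := 2) k
  omega

theorem main : ∃ x ∈ Hardy pp, ∀ y ∈ Hardy pp, ∀ (Φ : Finset (Lp ℂ pp mu →L[ℂ] ℂ)) (ε : ℝ),
    0 < ε → ∃ N : ℕ, ∀ φ ∈ Φ, ‖φ ((T0 ^ N) x) - φ y‖ < ε := by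
  classical
  obtain ⟨d, hd, hden⟩ := exists_family
  let h : ℕ → TT → ℂ := fun k =>
    if Q (d (padicValNat 2 (k + 1)).unpair.1) ≤ padicValNat 2 (k + 1) then
      d (padicValNat 2 (k + 1)).unpair.1 else fun _ => 0
  have hb : ∀ k, Bd (h k) := fun k => by
    simp only [h]; split_ifs
    exacts [(hd _).1, Bd.const 0]
  have hs : ∀ k, Sup (h k) := fun k => by
    simp only [h]; split_ifs
    exacts [(hd _).2, fun _ _ => rfl]
  have hq : ∀ k, Q (h k) ≤ padicValNat 2 (k + 1) := fun k => by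
    simp only [h]; split_ifs with c
    · exact c
    · rw [Q_zero]; positivity
  obtain ⟨n, hn⟩ := exists_seq hb hs
  have QS0 : ∀ k, Q (SS h n k) ≤ 2 * padicValNat 2 k.factorial + k := by
    intro k
    induction k with
    | zero =>
      have : SS h n 0 = fun _ => 0 := by ext x; simp [SS]
      rw [this, Q_zero]; positivity
    | succ k ih =>
      rw [Nat.factorial_succ, padicValNat.mul (by omega) k.factorial_ne_zero]
      have := (hn k).1
      have := hq k
      push_cast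
      linarith
  have QS : ∀ k, Q (SS h n k) ≤ 3 * k := fun k => by
    have h1 := QS0 k
    have h2 : (padicValNat 2 k.factorial : ℝ) ≤ k := by exact_mod_cast val_fact k
    linarith
  have QF : ∀ σ k, Q (FF h n σ k) ≤
      ∑ i ∈ Finset.range k, (6 * (‖cf (σ i)‖ / (i + 1)) + (1 / 2) ^ i) := by
    intro σ k
    induction k with
    | zero =>
      have : FF h n σ 0 = fun _ => 0 := by ext x; simp [FF]
      rw [this, Q_zero]; simp
    | succ k ih =>
      have a := (hn k).2.1 σ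
      rw [Q_smul, norm_div, div_pow, cf_sq] at a
      have b : ‖(k : ℂ) + 1‖ = k + 1 := by
        rw [show (k : ℂ) + 1 = ((k + 1 : ℕ) : ℂ) by push_cast; rfl, Complex.norm_natCast]
        push_cast; rfl
      rw [b] at a
      have c : ‖cf (σ k)‖ / ((k : ℝ) + 1) ^ 2 * Q (SS h n k) ≤ 3 * (‖cf (σ k)‖ / (k + 1)) := by
        have e : ‖cf (σ k)‖ / ((k : ℝ) + 1) ^ 2 * (3 * (k + 1)) = 3 * (‖cf (σ k)‖ / (k + 1)) := by
          field_simp
        rw [← e]
        exact mul_le_mul_of_nonneg_left (by linarith [QS k]) (by positivity)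
      rw [Finset.sum_range_succ]
      linarith
  let e : ℕ → Lp ℂ pp mu := fun k => PP (toL fun x => uu (n k) x * SS h n k x)
  have bes : ∀ (φ : Lp ℂ pp mu →L[ℂ] ℂ) (K : Finset ℕ),
      ∑ k ∈ K, ‖φ (e k)‖ / (k + 1) ≤ 2 * ‖φ‖ * ‖PP‖ * √(2 + 6 * ∑ k ∈ K, 1 / ((k : ℝ) + 1)) := by
    intro φ K
    choose c hc using fun k => exists_cf (φ (e k))
    let σ : ℕ → Fin 5 := fun k => if k ∈ K then c k else 0
    obtain ⟨M, hM⟩ := K.exists_nat_subset_range
    have e1 : φ (PP (toL (FF h n σ M))) = ∑ i ∈ Finset.range M, cf (σ i) / (i + 1) * φ (e i) := by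
      have : FF h n σ M = fun x => ∑ i ∈ Finset.range M,
          cf (σ i) / (i + 1) * (uu (n i) x * SS h n i x) := by
        ext x
        exact Finset.sum_congr rfl fun i _ => by ring
      rw [this, toL_sum (fun i => (Bd.const _).mul ((Bd.uu _).mul (Bd_SS hb n i))), map_sum,
        map_sum]
      refine Finset.sum_congr rfl fun i _ => ?_
      rw [toL_smul ((Bd.uu _).mul (Bd_SS hb n i)), map_smul, map_smul, smul_eq_mul]
    have e2 : ∑ k ∈ K, ‖φ (e k)‖ / (k + 1) ≤ 2 * (φ (PP (toL (FF h n σ M)))).re := by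
      rw [e1, Complex.re_sum, ← Finset.sum_subset hM, Finset.mul_sum]
      · refine Finset.sum_le_sum fun i hi => ?_
        have : cf (σ i) / (i + 1) * φ (e i) = (((i : ℝ) + 1)⁻¹ : ℝ) * (cf (c i) * φ (e i)) := by
          simp only [σ, if_pos hi]; push_cast; ring
        rw [this, Complex.re_ofReal_mul, div_eq_inv_mul, mul_left_comm]
        exact mul_le_mul_of_nonneg_left (by linarith [hc i]) (by positivity)
      · intro i _ hi
        simp [σ, hi, cf]
    have e3 : Q (FF h n σ M) ≤ 2 + 6 * ∑ k ∈ K, 1 / ((k : ℝ) + 1) := by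
      refine (QF σ M).trans ?_
      rw [Finset.sum_add_distrib, ← Finset.mul_sum, ← Finset.sum_subset hM]
      · have a := sum_geometric_two_le M
        have b : ∑ i ∈ K, ‖cf (σ i)‖ / ((i : ℝ) + 1) ≤ ∑ k ∈ K, 1 / ((k : ℝ) + 1) :=
          Finset.sum_le_sum fun i _ => div_le_div_of_nonneg_right (cf_le _) (by positivity)
        linarith
      · intro i _ hi
        simp [σ, hi, cf]
    have e4 := (Complex.re_le_norm _).trans ((φ.le_opNorm _).trans (mul_le_mul_of_nonneg_left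
      ((PP.le_opNorm _).trans (mul_le_mul_of_nonneg_left ((norm_toL_le (Bd_FF hb n σ M)).trans
        (Real.sqrt_le_sqrt e3)) (norm_nonneg _))) (norm_nonneg _)))
    linarith
  let v : ℕ → Lp ℂ pp mu := fun j => PP (Mu (-(n j : ℤ)) (toL (h j)))
  have hv : Summable v := Summable.of_norm_bounded summable_geometric_two fun j => (hn j).2.2.2
  have orb : ∀ k, ‖(T0 ^ n k) (∑' j, v j) - e k - PP (toL (h k))‖ ≤ (1 / 2) ^ k := by
    intro k
    have a : ∀ j, (T0 ^ n k) (v j) = PP (Mu ((n k : ℤ) - n j) (toL (h j))) := fun j => by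
      simp only [v]
      rw [T0_pow, Mu_Mu, sub_eq_add_neg]
    have b := ((T0 ^ n k).summable hv).sum_add_tsum_nat_add (k + 1)
    rw [(T0 ^ n k).map_tsum hv, ← b, Finset.sum_range_succ]
    have c : ∑ j ∈ Finset.range k, (T0 ^ n k) (v j) = e k := by
      have : (fun x => uu (n k) x * SS h n k x) = fun x => ∑ j ∈ Finset.range k,
          uu ((n k : ℤ) - n j) x * h j x := by
        ext x
        rw [SS, Finset.mul_sum]
        exact Finset.sum_congr rfl fun j _ => by rw [sub_eq_add_neg, uu_add, mul_assoc]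
      simp only [e]
      rw [this, toL_sum (fun j => (Bd.uu _).mul (hb j)), map_sum]
      exact Finset.sum_congr rfl fun j _ => by rw [a, Mu_toL _ (hb j)]
    rw [c, a k, sub_self, Mu_zero, add_assoc, add_sub_cancel_left, add_sub_cancel_left]
    refine tsum_of_norm_bounded (g := fun i => (1 / 2 : ℝ) ^ k / 2 / 2 ^ i)
      (hasSum_geometric_two' _) fun i => ?_
    rw [a]
    refine ((hn (i + (k + 1))).2.2.1 k (by omega)).trans_eq ?_
    rw [pow_add, pow_succ]
    field_simp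
    rw [← mul_pow]; simp
  refine ⟨∑' j, v j, ?_, fun y hy Φ ε hε => ?_⟩
  · exact isClosed_Hardy.mem_of_tendsto hv.hasSum.tendsto_sum_nat
      (.of_forall fun N => (Hardy pp).sum_mem fun j _ => PP_mem _)
  set C : ℝ := ∑ φ ∈ Φ, ‖φ‖ + 1 with hC
  have hC0 : 0 ≤ ∑ φ ∈ Φ, ‖φ‖ := Finset.sum_nonneg fun _ _ => norm_nonneg _
  have hC1 : 0 < C := by linarith
  have hφC : ∀ φ ∈ Φ, ‖φ‖ ≤ C := fun φ hφ =>
    (Finset.single_le_sum (f := fun φ : Lp ℂ pp mu →L[ℂ] ℂ => ‖φ‖)
      (fun _ _ => norm_nonneg _) hφ).trans (by linarith)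
  set δ : ℝ := ε / (3 * C) with hδ
  have hδ0 : 0 < δ := by positivity
  obtain ⟨i, hi⟩ := hden y hy δ hδ0
  obtain ⟨j, hj⟩ := exists_nat_ge (Q (d i))
  obtain ⟨k0, hk0⟩ := exists_pow_lt_of_lt_one hδ0 (show (1 / 2 : ℝ) < 1 by norm_num)
  let m := Nat.pair i j
  let g : ℕ → ℕ := fun r => 2 ^ m * (2 * (r + k0) + 1) - 1
  have g1 : ∀ r, g r + 1 = 2 ^ m * (2 * (r + k0) + 1) := fun r =>
    Nat.sub_add_cancel (Nat.one_le_iff_ne_zero.2 (by positivity))
  have g2 : Function.Injective g := fun r s hrs => by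
    have := g1 r
    rw [hrs, g1 s] at this
    have := Nat.eq_of_mul_eq_mul_left (by positivity) this
    omega
  have g3 : ∀ r, h (g r) = d i := fun r => by
    simp only [h]
    rw [g1, val_two, Nat.unpair_pair, if_pos]
    exact hj.trans (by exact_mod_cast Nat.right_le_pair i j)
  have g4 : ∀ r, k0 ≤ g r := fun r => by
    have := g1 r
    have : 2 * (r + k0) + 1 ≤ 2 ^ m * (2 * (r + k0) + 1) := Nat.le_mul_of_pos_left _ (by positivity)
    omega
  have ex : ∃ r, ∑ φ ∈ Φ, ‖φ (e (g r))‖ < ε / 3 := by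
    by_contra hc
    push Not at hc
    set D : ℝ := 2 * C * ‖PP‖ with hD
    obtain ⟨N, hN⟩ := ((Real.tendsto_sum_range_one_div_nat_succ_atTop.const_mul_atTop
      (show (0 : ℝ) < 1 / (2 ^ m * (2 * k0 + 2)) by positivity)).eventually_gt_atTop
        (max 1 ((9 * D / ε) ^ 2))).exists
    set K := (Finset.range N).image g
    set s : ℝ := ∑ k ∈ K, 1 / ((k : ℝ) + 1) with hs'
    have s1 : max 1 ((9 * D / ε) ^ 2) < s := by
      refine hN.trans_le ?_
      rw [hs', Finset.sum_image fun a _ b _ hab => g2 hab, Finset.mul_sum]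
      refine Finset.sum_le_sum fun r _ => ?_
      have : (g r : ℝ) + 1 = 2 ^ m * (2 * (r + k0) + 1) := by exact_mod_cast g1 r
      rw [this, div_mul_div_comm, one_mul, mul_assoc]
      refine one_div_le_one_div_of_le (by positivity) (mul_le_mul_of_nonneg_left ?_ (by positivity))
      have a : (0 : ℝ) ≤ r := by positivity
      have b : (0 : ℝ) ≤ k0 := by positivity
      nlinarith [mul_nonneg a b]
    have s2 : ε / 3 * s ≤ D * √(2 + 6 * s) := by
      calc ε / 3 * s = ∑ k ∈ K, ε / 3 / ((k : ℝ) + 1) := by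
            rw [hs', Finset.mul_sum]
            exact Finset.sum_congr rfl fun k _ => by ring
        _ ≤ ∑ k ∈ K, ∑ φ ∈ Φ, ‖φ (e k)‖ / ((k : ℝ) + 1) := by
            refine Finset.sum_le_sum fun k hk => ?_
            obtain ⟨r, -, rfl⟩ := Finset.mem_image.1 hk
            rw [← Finset.sum_div]
            exact div_le_div_of_nonneg_right (hc r) (by positivity)
        _ ≤ ∑ φ ∈ Φ, 2 * ‖φ‖ * ‖PP‖ * √(2 + 6 * s) := by
            rw [Finset.sum_comm]
            exact Finset.sum_le_sum fun φ _ => bes φ K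
        _ ≤ D * √(2 + 6 * s) := by
            rw [← Finset.sum_mul, ← Finset.sum_mul, ← Finset.mul_sum]
            refine mul_le_mul_of_nonneg_right (mul_le_mul_of_nonneg_right ?_ (norm_nonneg _))
              (Real.sqrt_nonneg _)
            linarith
    have s3 : 1 < s := (le_max_left _ _).trans_lt s1
    have s4 : (9 * D / ε) ^ 2 < s := (le_max_right _ _).trans_lt s1
    have D0 : 0 ≤ D := by positivity
    have s5 : √(2 + 6 * s) ≤ 3 * √s := by
      rw [Real.sqrt_le_left (by positivity), mul_pow, Real.sq_sqrt (by linarith)]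
      linarith
    have s6 : 9 * D / ε < √s := Real.lt_sqrt_of_sq_lt s4
    rw [div_lt_iff₀ hε] at s6
    have s7 : 0 < √s := Real.sqrt_pos.2 (by linarith)
    have s8 : √s * √s = s := Real.mul_self_sqrt (by linarith)
    nlinarith [mul_le_mul_of_nonneg_left s5 D0]
  obtain ⟨r, hr⟩ := ex
  refine ⟨n (g r), fun φ hφ => ?_⟩
  have a1 := orb (g r)
  rw [g3] at a1
  have a2 : (1 / 2 : ℝ) ^ g r ≤ δ :=
    (pow_le_pow_of_le_one (by norm_num) (by norm_num) (g4 r)).trans hk0.le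
  have a3 : ‖φ (e (g r))‖ < ε / 3 :=
    (Finset.single_le_sum (f := fun φ : Lp ℂ pp mu →L[ℂ] ℂ => ‖φ (e (g r))‖)
      (fun _ _ => norm_nonneg _) hφ).trans_lt hr
  have a4 : φ ((T0 ^ n (g r)) (∑' j, v j)) - φ y =
      φ ((T0 ^ n (g r)) (∑' j, v j) - e (g r) - PP (toL (d i))) + φ (e (g r)) +
        φ (PP (toL (d i)) - y) := by
    simp only [map_sub]; ring
  have a5 : C * δ = ε / 3 := by rw [hδ]; field_simp
  have a6 := (φ.le_opNorm _).trans (mul_le_mul (hφC φ hφ) (a1.trans a2) (norm_nonneg _) hC1.le)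
  have a7 := (φ.le_opNorm _).trans (mul_le_mul (hφC φ hφ) hi.le (norm_nonneg _) hC1.le)
  rw [a4]
  refine norm_add₃_le.trans_lt ?_
  linarith

end Pool.Agent.H.MP_0d9948_an
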